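import Pool.Agent.H5.EG.Spec2

/-!
# `f = exp (phi s)` in the unit disc
-/

set_option autoImplicit false

namespace Pool.Agent.H195.EG

open PowerSeries Filter Topology
open Pool.Agent.H5.EG

theorem coeff_phi (s : ℕ → ℤ) (n : ℕ) : PowerSeries.coeff n (phi s) = -(s n : ℂ) / n := by
  simp [phi]

theorem coeff_gg (s : ℕ → ℤ) (n : ℕ) : PowerSeries.coeff n (gg s) = -(s n) := by
  simp [gg]

theorem rad_phi (F : Fn) : Rad (phi F.s) := by
  obtain ⟨H, hH⟩ := F.bd
  intro ρ h0 h1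
  have hH0 : 0 ≤ H := (abs_nonneg _).trans (hH 0)
  refine Summable.of_nonneg_of_le (fun n => by positivity) (fun n => ?_)
    ((summable_geometric_of_lt_one h0 h1).mul_left H)
  apply mul_le_mul_of_nonneg_right _ (pow_nonneg h0 n)
  rw [coeff_phi, norm_div, norm_neg, Complex.norm_intCast, Complex.norm_natCast]
  rcases Nat.eq_zero_or_pos n with hn | hn
  · subst hn; simpa using hH0
  · rw [div_le_iff₀ (by exact_mod_cast hn)]
    have h2 : (1 : ℝ) ≤ n := by exact_mod_cast hn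
    nlinarith [hH n]

theorem D_phi (F : Fn) : D (phi F.s) = toC (gg F.s) := by
  ext n
  rw [coeff_D, coeff_phi, coeff_toC, coeff_gg]
  rcases Nat.eq_zero_or_pos n with hn | hn
  · subst hn; simp [F.s0]
  · have : (n : ℂ) ≠ 0 := by exact_mod_cast hn.ne'
    push_cast
    field_simp

/-- the partial sums of the absolute values of the coefficients -/
theorem coeff_bound (F : Fn) (H : ℕ) (hH : ∀ n, |(F.s n : ℝ)| ≤ H) (n : ℕ) :
    ∑ j ∈ Finset.range (n + 1), |((PowerSeries.coeff j F.f : ℤ) : ℝ)| ≤ ((n : ℝ) + 1) ^ H := by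
  induction n with
  | zero =>
    have h1 : PowerSeries.coeff 0 F.f = 1 := by
      rw [PowerSeries.coeff_zero_eq_constantCoeff]; exact F.f0
    simp [h1]
  | succ n ih =>
    rw [Finset.sum_range_succ]
    set A := ∑ j ∈ Finset.range (n + 1), |((PowerSeries.coeff j F.f : ℤ) : ℝ)| with hA
    have hA0 : 0 ≤ A := Finset.sum_nonneg fun _ _ => abs_nonneg _
    have h1 : ((n + 1 : ℕ) : ℤ) * PowerSeries.coeff (n + 1) F.f =
        ∑ p ∈ Finset.HasAntidiagonal.antidiagonal (n + 1),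
          PowerSeries.coeff p.1 (gg F.s) * PowerSeries.coeff p.2 F.f := by
      rw [← PowerSeries.coeff_mul, ← F.eq, coeff_D]
    rw [Finset.Nat.sum_antidiagonal_eq_sum_range_succ_mk, Finset.sum_range_succ'] at h1
    simp only [coeff_gg, F.s0, neg_zero, zero_mul, add_zero] at h1
    have h2 : ((n : ℝ) + 1) * |((PowerSeries.coeff (n + 1) F.f : ℤ) : ℝ)| ≤ H * A := by
      have h3 : ((n : ℝ) + 1) * |((PowerSeries.coeff (n + 1) F.f : ℤ) : ℝ)| =
          |∑ x ∈ Finset.range (n + 1), -((F.s (x + 1) : ℤ) : ℝ) *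
            ((PowerSeries.coeff (n + 1 - (x + 1)) F.f : ℤ) : ℝ)| := by
        have h4 : ((n : ℝ) + 1) * ((PowerSeries.coeff (n + 1) F.f : ℤ) : ℝ) =
            ∑ x ∈ Finset.range (n + 1), -((F.s (x + 1) : ℤ) : ℝ) *
            ((PowerSeries.coeff (n + 1 - (x + 1)) F.f : ℤ) : ℝ) := by
          exact_mod_cast h1
        rw [← h4, abs_mul, abs_of_nonneg (by positivity : (0 : ℝ) ≤ (n : ℝ) + 1)]
      rw [h3]
      refine (Finset.abs_sum_le_sum_abs _ _).trans ?_
      have h5 : A = ∑ x ∈ Finset.range (n + 1),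
          |((PowerSeries.coeff (n + 1 - (x + 1)) F.f : ℤ) : ℝ)| := by
        rw [hA, ← Finset.sum_range_reflect]
        refine Finset.sum_congr rfl fun x hx => ?_
        rw [Finset.mem_range] at hx
        have : n + 1 - 1 - x = n + 1 - (x + 1) := by omega
        rw [this]
      rw [h5, Finset.mul_sum]
      refine Finset.sum_le_sum fun x _ => ?_
      rw [abs_mul, abs_neg]
      exact mul_le_mul_of_nonneg_right (hH _) (abs_nonneg _)
    have hn : (0 : ℝ) < (n : ℝ) + 1 := by positivity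
    have h6 : |((PowerSeries.coeff (n + 1) F.f : ℤ) : ℝ)| ≤ H / ((n : ℝ) + 1) * A := by
      rw [div_mul_eq_mul_div, le_div_iff₀ hn]
      linarith
    have h7 : 1 + (H : ℝ) * (1 / ((n : ℝ) + 1)) ≤ (1 + 1 / ((n : ℝ) + 1)) ^ H :=
      one_add_mul_le_pow (by
        have : (0 : ℝ) ≤ 1 / ((n : ℝ) + 1) := by positivity
        linarith) H
    calc A + |((PowerSeries.coeff (n + 1) F.f : ℤ) : ℝ)| ≤ A + H / ((n : ℝ) + 1) * A := by
          linarith
      _ = (1 + (H : ℝ) * (1 / ((n : ℝ) + 1))) * A := by ring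
      _ ≤ (1 + 1 / ((n : ℝ) + 1)) ^ H * ((n : ℝ) + 1) ^ H :=
          mul_le_mul h7 ih hA0 (by positivity)
      _ = (((n + 1 : ℕ) : ℝ) + 1) ^ H := by
          rw [← mul_pow]
          congr 1
          push_cast
          field_simp

theorem rad_f (F : Fn) : Rad (toC F.f) := by
  obtain ⟨H0, hH0⟩ := F.bd
  obtain ⟨H, hH⟩ := exists_nat_ge H0
  have hb : ∀ n, |(F.s n : ℝ)| ≤ H := fun n => (hH0 n).trans hH
  intro ρ h0 h1
  have h2 : Summable fun n : ℕ => (n : ℝ) ^ H * ρ ^ n := by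
    have := summable_pow_mul_geometric_of_norm_lt_one H (r := ρ) (by rwa [Real.norm_of_nonneg h0])
    exact this
  refine Summable.of_nonneg_of_le (fun n => by positivity) (fun n => ?_)
    ((h2.mul_left (2 ^ H)).add (summable_geometric_of_lt_one h0 h1))
  have h3 : ‖PowerSeries.coeff n (toC F.f)‖ ≤ ((n : ℝ) + 1) ^ H := by
    rw [coeff_toC, Complex.norm_intCast]
    refine le_trans ?_ (coeff_bound F H hb n)
    exact Finset.single_le_sum (f := fun j => |((PowerSeries.coeff j F.f : ℤ) : ℝ)|)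
      (fun _ _ => abs_nonneg _) (Finset.self_mem_range_succ n)
  have h4 : ((n : ℝ) + 1) ^ H ≤ 2 ^ H * (n : ℝ) ^ H + 1 := by
    rcases Nat.eq_zero_or_pos n with hn | hn
    · subst hn
      have : (0 : ℝ) ≤ 2 ^ H * ((0 : ℕ) : ℝ) ^ H := by positivity
      simp only [Nat.cast_zero, zero_add, one_pow] at this ⊢
      linarith
    · have h5 : (1 : ℝ) ≤ n := by exact_mod_cast hn
      have h6 : ((n : ℝ) + 1) ^ H ≤ (2 * (n : ℝ)) ^ H :=
        pow_le_pow_left₀ (by positivity) (by linarith) H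
      rw [mul_pow] at h6
      linarith
  calc ‖PowerSeries.coeff n (toC F.f)‖ * ρ ^ n ≤ (2 ^ H * (n : ℝ) ^ H + 1) * ρ ^ n :=
        mul_le_mul_of_nonneg_right (h3.trans h4) (pow_nonneg h0 n)
    _ = 2 ^ H * ((n : ℝ) ^ H * ρ ^ n) + ρ ^ n := by ring

/-- the derivative of `ev a` -/
theorem ev_deriv {a : PowerSeries ℂ} (ha : Rad a) {x : ℂ} (hx : ‖x‖ < 1) :
    ∃ d, HasDerivAt (ev a) d x ∧ x * d = ev (D a) x := by
  obtain ⟨ρ, hρ1, hρ2⟩ := exists_between hx
  have hρ0 : 0 < ρ := lt_of_le_of_lt (norm_nonneg _) hρ1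
  have hD := Rad.D ha ρ hρ0.le hρ2
  refine ⟨∑' n, PowerSeries.coeff n a * (n * x ^ (n - 1)), ?_, ?_⟩
  · have hu : Summable fun n => ‖PowerSeries.coeff n (D a)‖ * ρ ^ n * ρ⁻¹ := hD.mul_right _
    apply hasDerivAt_tsum_of_isPreconnected hu (t := Metric.ball 0 ρ) Metric.isOpen_ball
      (convex_ball _ _).isPreconnected (g := fun n z => PowerSeries.coeff n a * z ^ n)
      (g' := fun n z => PowerSeries.coeff n a * (n * z ^ (n - 1))) (y₀ := 0)
    · intro n y _
      exact (hasDerivAt_pow n y).const_mul _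
    · intro n y hy
      have hy' : ‖y‖ ≤ ρ := by
        have := hy
        rw [mem_ball_zero_iff] at this
        exact this.le
      rcases Nat.eq_zero_or_pos n with hn | hn
      · subst hn; simp
      · rw [coeff_D, norm_mul, norm_mul, norm_mul, norm_pow, Complex.norm_natCast]
        have h1 : ρ ^ n * ρ⁻¹ = ρ ^ (n - 1) := by
          have : n = n - 1 + 1 := by omega
          conv_lhs => rw [this, pow_succ]
          rw [mul_assoc, mul_inv_cancel₀ hρ0.ne', mul_one]
        have h2 : ‖y‖ ^ (n - 1) ≤ ρ ^ (n - 1) := pow_le_pow_left₀ (norm_nonneg _) hy' _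
        calc ‖PowerSeries.coeff n a‖ * ((n : ℝ) * ‖y‖ ^ (n - 1)) ≤
              ‖PowerSeries.coeff n a‖ * ((n : ℝ) * ρ ^ (n - 1)) := by gcongr
          _ = (n : ℝ) * ‖PowerSeries.coeff n a‖ * ρ ^ n * ρ⁻¹ := by
              rw [mul_assoc ((n : ℝ) * ‖PowerSeries.coeff n a‖), h1]; ring
    · exact Metric.mem_ball_self hρ0
    · exact (ev_summable ha (by simp : ‖(0 : ℂ)‖ < 1)).of_norm
    · rw [mem_ball_zero_iff]; exact hρ1
  · rw [ev, ← tsum_mul_left]
    refine tsum_congr fun n => ?_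
    rw [coeff_D]
    rcases Nat.eq_zero_or_pos n with hn | hn
    · subst hn; simp
    · have : x ^ n = x ^ (n - 1) * x := by
        rw [← pow_succ]; congr 1; omega
      rw [this]; ring

theorem exp_ : S_exp := by
  intro F
  have hf := rad_f F
  have hφ := rad_phi F
  refine ⟨hf, hφ, ?_⟩
  set A : ℂ → ℂ := fun x => ev (toC F.f) x * Complex.exp (-(ev (phi F.s) x)) with hA
  have hDf : D (toC F.f) = D (phi F.s) * toC F.f := by
    rw [D_phi, ← toC_mul, ← F.eq, toC_D]
  have hder : ∀ x : ℂ, ‖x‖ < 1 → DifferentiableAt ℂ A x ∧ x * deriv A x = 0 := by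
    intro x hx
    obtain ⟨d, hd, hxd⟩ := ev_deriv hf hx
    obtain ⟨e, he, hxe⟩ := ev_deriv hφ hx
    have h1 : HasDerivAt A (d * Complex.exp (-(ev (phi F.s) x)) +
        ev (toC F.f) x * (Complex.exp (-(ev (phi F.s) x)) * (-e))) x :=
      hd.mul (he.neg.cexp)
    refine ⟨h1.differentiableAt, ?_⟩
    rw [h1.deriv]
    have h2 : ev (D (toC F.f)) x = ev (D (phi F.s)) x * ev (toC F.f) x := by
      rw [hDf, ev_mul (Rad.D hφ) hf hx]
    rw [← hxd, ← hxe] at h2
    linear_combination Complex.exp (-(ev (phi F.s) x)) * h2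
  have hdiff : DifferentiableOn ℂ A (Metric.ball 0 1) := by
    intro x hx
    rw [mem_ball_zero_iff] at hx
    exact (hder x hx).1.differentiableWithinAt
  have hne : ∀ x : ℂ, ‖x‖ < 1 → x ≠ 0 → deriv A x = 0 := by
    intro x hx h0
    rcases mul_eq_zero.1 (hder x hx).2 with h | h
    · exact absurd h h0
    · exact h
  have hd0 : deriv A 0 = 0 := by
    have h1 : ContinuousAt (deriv A) 0 :=
      ((hdiff.deriv Metric.isOpen_ball).continuousOn).continuousAt
        (Metric.isOpen_ball.mem_nhds (Metric.mem_ball_self one_pos))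
    have h2 : Tendsto (deriv A) (𝓝[≠] 0) (𝓝 (deriv A 0)) := h1.tendsto.mono_left nhdsWithin_le_nhds
    have h3 : ∀ᶠ x in 𝓝[≠] (0 : ℂ), deriv A x = 0 := by
      have h4 : ∀ᶠ x in 𝓝[≠] (0 : ℂ), x ∈ Metric.ball (0 : ℂ) 1 :=
        nhdsWithin_le_nhds (Metric.isOpen_ball.mem_nhds (Metric.mem_ball_self one_pos))
      have h5 : ∀ᶠ x in 𝓝[≠] (0 : ℂ), x ∈ ({0}ᶜ : Set ℂ) := self_mem_nhdsWithin
      filter_upwards [h4, h5] with x hx1 hx2
      rw [mem_ball_zero_iff] at hx1
      exact hne x hx1 hx2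
    have h6 : Tendsto (deriv A) (𝓝[≠] 0) (𝓝 0) :=
      tendsto_const_nhds.congr' (h3.mono fun x hx => hx.symm)
    exact tendsto_nhds_unique h2 h6
  have hconst : ∀ x : ℂ, ‖x‖ < 1 → A x = A 0 := by
    intro x hx
    apply Metric.isOpen_ball.is_const_of_deriv_eq_zero (convex_ball (0 : ℂ) 1).isPreconnected hdiff
    · intro y hy
      rw [mem_ball_zero_iff] at hy
      by_cases h0 : y = 0
      · rw [h0]; exact hd0
      · exact hne y hy h0
    · rw [mem_ball_zero_iff]; exact hx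
    · exact Metric.mem_ball_self one_pos
  have hA0 : A 0 = 1 := by
    have h1 : ev (toC F.f) 0 = 1 := by
      rw [ev, tsum_eq_single 0]
      · rw [coeff_toC, PowerSeries.coeff_zero_eq_constantCoeff, F.f0]; simp
      · intro n hn; simp [hn]
    have h2 : ev (phi F.s) 0 = 0 := by
      rw [ev, tsum_eq_single 0]
      · rw [coeff_phi]; simp
      · intro n hn; simp [hn]
    show ev (toC F.f) 0 * Complex.exp (-(ev (phi F.s) 0)) = 1
    rw [h1, h2]; simp
  intro x hx
  have h1 := (hconst x hx).trans hA0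
  have h2 : ev (toC F.f) x * Complex.exp (-(ev (phi F.s) x)) = 1 := h1
  rw [Complex.exp_neg] at h2
  have h3 := Complex.exp_ne_zero (ev (phi F.s) x)
  field_simp at h2
  exact h2

end Pool.Agent.H195.EG
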